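import Pool.Agent.MP_477625_lc.H71.Final

/-!
Assume `V = L[U]` with `U` a normal measure on `κ`.  Every complete, recursively axiomatized
second order theory in a finite relational vocabulary which has a model of cardinality below `κ`
is categorical.
-/

namespace Pool.Agent.Results.MP_477625_lc.SmallModels
open Pool.Agent.MP_477625_lc.H75

theorem result (κ : Cardinal.{0}) (U : ZFSet.{0}) (hU : IsNormalMeasure κ U)
    (hV : ∀ x : ZFSet.{0}, ∃ o : Ordinal.{0}, x ∈ LU U o)
    (σ : List ℕ) (T : Set (Sentence σ)) (hT : Complete T) (hR : RecAxiomatized T)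
    (M : Struc σ) (hM : M.Models T) (hκ : Cardinal.mk M.A < κ) : Categorical T :=
  main2 κ U hU hV σ T hT hR M hM hκ

end Pool.Agent.Results.MP_477625_lc.SmallModels
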